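import Pool.Agent.H11.SB.Conv

/-!
# SB.Boot : the bootstrap of the moment equations, abstract form

`φ = ∑ p_k P_k`, `p 478 = E`, the moments `∫ F_k P_k` vanish for all even `k < 1212`, `k ≠ 478`, where
`F_k = φ + κ_k φ² + O(φ³)`. Then the moment of `F_l` is `D E + (g / 2) E² + error`.
-/

set_option autoImplicit false

open Polynomial MeasureTheory intervalIntegral Set
open Pool.Agent.H27.Leg

namespace Pool.Agent.H11.SB

/-- the low modes -/
@[irreducible] def Lw (l : ℕ) : Finset ℕ := (Finset.range 1212).filter fun k => Even k ∧ k ≠ l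

/-- hypotheses of the bootstrap -/
structure BD (l : ℕ) (p : ℕ → ℝ) (E : ℝ) (κ : ℕ → ℝ) (F : ℕ → ℝ → ℝ) : Prop where
  hl : l = 478
  E0 : 0 ≤ E
  E1 : E ≤ 16 / 10 ^ 5
  summ : Summable fun k => |p k|
  odd : ∀ k, Odd k → p k = 0
  amp : p l = E
  near : ∑' k, (if k = l then 0 else |p k|) ≤ 2000 * E ^ 2
  high : ∑' k, |p (k + 1212)| ≤ 50 * E ^ 2
  kap : ∀ k ∈ Lw l, |κ k| ≤ 307
  S2 : ∑ k ∈ Lw l, |κ k| * c l l k ≤ 23 / 10
  S3 : ∑ k ∈ Lw l, |κ k| * c l l k * c l k l ≤ 53 / 10 ^ 4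
  M3 : ∀ k ∈ Lw l, |κ k| * c l k l ≤ 7 / 10
  cont : ∀ k ∈ Lw l, ContinuousOn (F k) (Icc (-1) 1)
  tay : ∀ k ∈ Lw l, ∀ x ∈ Icc (-1 : ℝ) 1,
    |F k x - (ph p x + κ k * (ph p x) ^ 2)| ≤ 2 / 5 * |ph p x| ^ 3
  mom : ∀ k ∈ Lw l, ∫ x in (-1 : ℝ)..1, F k x * (P k).eval x = 0

theorem coef_add (k : ℕ) {f g : ℝ → ℝ} (hf : ContinuousOn f (Icc (-1) 1)) (hg : ContinuousOn g (Icc (-1) 1)) :
    coef k (fun x => f x + g x) = coef k f + coef k g := by
  unfold coef
  rw [← mul_add, ← intervalIntegral.integral_add]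
  · congr 1
    refine integral_congr fun x _ => ?_
    simp only
    ring
  · refine ContinuousOn.intervalIntegrable ?_
    rw [uIcc_of_le (by norm_num)]
    exact hf.mul (P k).continuous.continuousOn
  · refine ContinuousOn.intervalIntegrable ?_
    rw [uIcc_of_le (by norm_num)]
    exact hg.mul (P k).continuous.continuousOn

theorem coef_smul (k : ℕ) (a : ℝ) (f : ℝ → ℝ) : coef k (fun x => a * f x) = a * coef k f := by
  unfold coef
  rw [mul_left_comm]
  congr 1
  rw [← intervalIntegral.integral_const_mul]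
  refine integral_congr fun x _ => ?_
  simp only
  ring

theorem coef_congr (k : ℕ) {f g : ℝ → ℝ} (h : ∀ x ∈ Icc (-1 : ℝ) 1, f x = g x) : coef k f = coef k g := by
  unfold coef
  congr 1
  refine integral_congr fun x hx => ?_
  rw [uIcc_of_le (by norm_num)] at hx
  simp only [h x hx]

/-- the off-resonant part -/
def psi (l : ℕ) (p : ℕ → ℝ) (k : ℕ) : ℝ := if k = l then 0 else p k

variable {l : ℕ} {p : ℕ → ℝ}

theorem psi_summ (hp : Summable fun k => |p k|) : Summable fun k => |psi l p k| := by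
  refine Summable.of_nonneg_of_le (fun k => abs_nonneg _) (fun k => ?_) hp
  unfold psi
  split_ifs
  · rw [abs_zero]
    exact abs_nonneg _
  · exact le_rfl

theorem nm_psi : nm (psi l p) = ∑' k, (if k = l then 0 else |p k|) := by
  unfold nm psi
  refine tsum_congr fun k => ?_
  split_ifs <;> simp

theorem nm_nonneg : 0 ≤ nm p := tsum_nonneg fun _ => abs_nonneg _

theorem nm_eq (hp : Summable fun k => |p k|) : nm p = |p l| + nm (psi l p) := by
  have h1 : HasSum (fun k => if k = l then |p l| else 0) |p l| := hasSum_ite_eq l _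
  have h2 := h1.add (psi_summ (l := l) hp).hasSum
  have h3 : (fun k => (if k = l then |p l| else 0) + |psi l p k|) = fun k => |p k| := by
    funext k
    unfold psi
    split_ifs with h
    · rw [h, abs_zero, add_zero]
    · rw [zero_add]
  rw [h3] at h2
  exact h2.tsum_eq

theorem ph_eq (hp : Summable fun k => |p k|) {x : ℝ} (hx : |x| ≤ 1) :
    ph p x = p l * (P l).eval x + ph (psi l p) x := by
  have h1 : HasSum (fun k => if k = l then p l * (P l).eval x else 0) (p l * (P l).eval x) :=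
    hasSum_ite_eq l _
  have h2 := h1.add (ph_summable (psi_summ (l := l) hp) hx).hasSum
  have h3 : (fun k => (if k = l then p l * (P l).eval x else 0) + psi l p k * (P k).eval x) =
      fun k => p k * (P k).eval x := by
    funext k
    unfold psi
    split_ifs with h
    · rw [h, zero_mul, add_zero]
    · rw [zero_add]
  rw [h3] at h2
  exact h2.tsum_eq

theorem int_abs_P (k : ℕ) : ∫ x in (-1 : ℝ)..1, |(P k).eval x| ≤ 2 / Real.sqrt (2 * (k : ℝ) + 1) := by
  have h := int_abs_PP 0 k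
  have h1 : ∀ x : ℝ, |(P 0).eval x| * |(P k).eval x| = |(P k).eval x| := by
    intro x
    rw [P_zero]
    simp
  simp only [h1] at h
  refine h.trans (le_of_eq ?_)
  simp

/-- the cubic remainder -/
theorem rem_le (hp : Summable fun k => |p k|) {E C : ℝ} (hE : 0 ≤ E) (hC : 0 ≤ C) (hl : l = 478) (hamp : p l = E) (k : ℕ) {h : ℝ → ℝ}
    (hc : ContinuousOn h (Icc (-1) 1)) (hb : ∀ x ∈ Icc (-1 : ℝ) 1, |h x| ≤ C * |ph p x| ^ 3) :
    |coef k h| ≤ C * (E + nm (psi l p)) ^ 2 * (E / Real.sqrt 957 + nm (psi l p)) * Real.sqrt (2 * (k : ℝ) + 1) := by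
  set S := nm (psi l p) with hS
  have hS0 : 0 ≤ S := nm_nonneg
  have hnm : nm p = E + S := by rw [nm_eq hp, hamp, abs_of_nonneg hE]
  have hpt : ∀ x ∈ Icc (-1 : ℝ) 1, |h x| * |(P k).eval x| ≤
      C * (E + S) ^ 2 * (E * (|(P l).eval x| * |(P k).eval x|) + S * |(P k).eval x|) := by
    intro x hx
    have hx1 := abs_le.2 hx
    have e1 : |ph p x| ≤ E + S := hnm ▸ abs_ph_le hp hx1
    have e2 : |ph p x| ≤ E * |(P l).eval x| + S := by
      rw [ph_eq hp hx1, hamp]
      refine (abs_add_le _ _).trans ?_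
      rw [abs_mul, abs_of_nonneg hE]
      have := abs_ph_le (psi_summ (l := l) hp) hx1
      linarith
    have e3 : |ph p x| ^ 3 ≤ (E + S) ^ 2 * (E * |(P l).eval x| + S) := by
      have : |ph p x| ^ 3 = |ph p x| ^ 2 * |ph p x| := by ring
      rw [this]
      gcongr
    calc |h x| * |(P k).eval x| ≤ C * ((E + S) ^ 2 * (E * |(P l).eval x| + S)) * |(P k).eval x| := by
          refine mul_le_mul_of_nonneg_right ((hb x hx).trans ?_) (abs_nonneg _)
          exact mul_le_mul_of_nonneg_left e3 hC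
      _ = _ := by ring
  have hi1 : IntervalIntegrable (fun x => |h x| * |(P k).eval x|) volume (-1) 1 := by
    refine ContinuousOn.intervalIntegrable ?_
    rw [uIcc_of_le (by norm_num)]
    exact hc.abs.mul (P k).continuous.abs.continuousOn
  have hca : Continuous fun x : ℝ => |(P l).eval x| * |(P k).eval x| :=
    (P l).continuous.abs.mul (P k).continuous.abs
  have hcb : Continuous fun x : ℝ => |(P k).eval x| := (P k).continuous.abs
  have h1 : |∫ x in (-1 : ℝ)..1, h x * (P k).eval x| ≤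
      C * (E + S) ^ 2 * (E * (2 / (Real.sqrt 957 * Real.sqrt (2 * (k : ℝ) + 1))) +
        S * (2 / Real.sqrt (2 * (k : ℝ) + 1))) := by
    calc |∫ x in (-1 : ℝ)..1, h x * (P k).eval x| ≤ ∫ x in (-1 : ℝ)..1, |h x * (P k).eval x| :=
          intervalIntegral.abs_integral_le_integral_abs (by norm_num)
      _ = ∫ x in (-1 : ℝ)..1, |h x| * |(P k).eval x| := by
          refine integral_congr fun x _ => ?_
          exact abs_mul _ _
      _ ≤ ∫ x in (-1 : ℝ)..1, C * (E + S) ^ 2 * (E * (|(P l).eval x| * |(P k).eval x|) + S * |(P k).eval x|) :=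
          integral_mono_on (by norm_num) hi1
            ((((hca.const_mul E).add (hcb.const_mul S)).const_mul _).intervalIntegrable _ _) hpt
      _ = C * (E + S) ^ 2 * (E * (∫ x in (-1 : ℝ)..1, |(P l).eval x| * |(P k).eval x|) +
            S * ∫ x in (-1 : ℝ)..1, |(P k).eval x|) := by
          rw [intervalIntegral.integral_const_mul, intervalIntegral.integral_add
            ((hca.const_mul E).intervalIntegrable _ _) ((hcb.const_mul S).intervalIntegrable _ _),
            intervalIntegral.integral_const_mul, intervalIntegral.integral_const_mul]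
      _ ≤ _ := by
          have a1 := int_abs_PP l k
          have a2 := int_abs_P k
          have a3 : (2 * (l : ℝ) + 1) = 957 := by
            rw [hl]
            norm_num
          rw [a3] at a1
          gcongr
  unfold coef
  have hk : (0 : ℝ) < 2 * (k : ℝ) + 1 := by positivity
  rw [abs_mul, abs_of_pos (by positivity)]
  refine (mul_le_mul_of_nonneg_left h1 (by positivity)).trans (le_of_eq ?_)
  have h9 : 0 < Real.sqrt 957 := Real.sqrt_pos.2 (by norm_num)
  have h8 : 0 < Real.sqrt (2 * (k : ℝ) + 1) := Real.sqrt_pos.2 hk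
  have h7 : Real.sqrt (2 * (k : ℝ) + 1) * Real.sqrt (2 * (k : ℝ) + 1) = 2 * (k : ℝ) + 1 := Real.mul_self_sqrt hk.le
  have h6 : (2 * (k : ℝ) + 1) / 2 * (C * (E + S) ^ 2 * (E * (2 / (Real.sqrt 957 * Real.sqrt (2 * (k : ℝ) + 1))) +
        S * (2 / Real.sqrt (2 * (k : ℝ) + 1)))) =
      (Real.sqrt (2 * (k : ℝ) + 1) * Real.sqrt (2 * (k : ℝ) + 1)) / 2 * (C * (E + S) ^ 2 *
        (E * (2 / (Real.sqrt 957 * Real.sqrt (2 * (k : ℝ) + 1))) + S * (2 / Real.sqrt (2 * (k : ℝ) + 1)))) := by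
    rw [h7]
  rw [h6]
  field_simp

theorem sum_sqrt (l : ℕ) : ∑ k ∈ Lw l, Real.sqrt (2 * (k : ℝ) + 1) ≤ 21100 := by
  have h1 : ∀ k : ℕ, Real.sqrt (2 * (k : ℝ) + 1) ≤ (2 * (k : ℝ) + 1) / 70 + 35 / 2 := by
    intro k
    rw [Real.sqrt_le_left (by positivity)]
    nlinarith [sq_nonneg ((2 * (k : ℝ) + 1) / 70 - 35 / 2)]
  have h2 : ∑ k ∈ Lw l, Real.sqrt (2 * (k : ℝ) + 1) ≤
      ∑ k ∈ (Finset.range 606).image (fun i : ℕ => 2 * i), ((2 * (k : ℝ) + 1) / 70 + 35 / 2) := by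
    refine (Finset.sum_le_sum fun k _ => h1 k).trans
      (Finset.sum_le_sum_of_subset_of_nonneg ?_ fun k _ _ => by positivity)
    intro k hk
    unfold Lw at hk
    rw [Finset.mem_filter, Finset.mem_range] at hk
    obtain ⟨i, hi⟩ := hk.2.1.two_dvd
    rw [Finset.mem_image]
    exact ⟨i, Finset.mem_range.2 (by omega), hi.symm⟩
  rw [Finset.sum_image (by intro a _ b _ h; simpa using h)] at h2
  refine h2.trans ?_
  push_cast
  have h3 : ∀ n : ℕ, ∑ i ∈ Finset.range n, ((2 * (2 * (i : ℝ)) + 1) / 70 + 35 / 2) =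
      (2 * (n : ℝ) ^ 2 - n) / 70 + 35 / 2 * n := by
    intro n
    induction n with
    | zero => simp
    | succ n ih =>
      rw [Finset.sum_range_succ, ih]
      push_cast
      ring
  rw [h3]
  norm_num

section Main

variable {E : ℝ} {κ : ℕ → ℝ} {F : ℕ → ℝ → ℝ}

/-- the coefficient of `φ²` -/
theorem coef_sq (hp : Summable fun k => |p k|) (k : ℕ) :
    coef k (fun x => (ph p x) ^ 2) = (p l) ^ 2 * c l l k +
      2 * p l * coef k (fun x => (P l).eval x * ph (psi l p) x) + coef k (fun x => ph (psi l p) x * ph (psi l p) x) := by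
  have hc1 : ContinuousOn (ph (psi l p)) (Icc (-1) 1) := ph_continuousOn (psi_summ (l := l) hp)
  have hcP : ContinuousOn (fun x : ℝ => (P l).eval x) (Icc (-1) 1) := (P l).continuous.continuousOn
  rw [coef_congr k (g := fun x => ((p l) ^ 2 * ((P l).eval x * (P l).eval x) +
    2 * p l * ((P l).eval x * ph (psi l p) x)) + ph (psi l p) x * ph (psi l p) x) (fun x hx => by
      rw [ph_eq hp (abs_le.2 hx)]
      ring)]
  have c1 : ContinuousOn (fun x : ℝ => (p l) ^ 2 * ((P l).eval x * (P l).eval x)) (Icc (-1) 1) :=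
    (hcP.mul hcP).const_mul _
  have c2 : ContinuousOn (fun x : ℝ => 2 * p l * ((P l).eval x * ph (psi l p) x)) (Icc (-1) 1) :=
    (hcP.mul hc1).const_mul _
  have c3 : ContinuousOn (fun x : ℝ => (p l) ^ 2 * ((P l).eval x * (P l).eval x) +
    2 * p l * ((P l).eval x * ph (psi l p) x)) (Icc (-1) 1) := c1.add c2
  have c4 : ContinuousOn (fun x : ℝ => ph (psi l p) x * ph (psi l p) x) (Icc (-1) 1) := hc1.mul hc1
  rw [coef_add k c3 c4, coef_add k c1 c2, coef_smul, coef_smul, coef_PP]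

variable (h : BD l p E κ F)
include h

theorem BD.low {k : ℕ} (hk : k ∈ Lw l) :
    |p k| ≤ |κ k| * c l l k * E ^ 2 + |κ k| * (2 * E * |coef k (fun x => (P l).eval x * ph (psi l p) x)| +
      |coef k (fun x => ph (psi l p) x * ph (psi l p) x)|) +
      2 / 5 * (E + nm (psi l p)) ^ 2 * (E / Real.sqrt 957 + nm (psi l p)) * Real.sqrt (2 * (k : ℝ) + 1) := by
  have hcp := ph_continuousOn h.summ
  have hcF := h.cont k hk
  have hcr : ContinuousOn (fun x => F k x - (ph p x + κ k * (ph p x) ^ 2)) (Icc (-1) 1) :=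
    hcF.sub (hcp.add ((hcp.pow 2).const_mul _))
  have hr := rem_le h.summ h.E0 (by norm_num : (0 : ℝ) ≤ 2 / 5) h.hl h.amp k hcr (h.tay k hk)
  have h0 : coef k (F k) = 0 := by
    unfold coef
    rw [h.mom k hk, mul_zero]
  have h1 : coef k (F k) = (p k + κ k * coef k (fun x => (ph p x) ^ 2)) +
      coef k (fun x => F k x - (ph p x + κ k * (ph p x) ^ 2)) := by
    have c1 : ContinuousOn (fun x => κ k * (ph p x) ^ 2) (Icc (-1) 1) := (hcp.pow 2).const_mul _
    have c2 : ContinuousOn (fun x => ph p x + κ k * (ph p x) ^ 2) (Icc (-1) 1) := hcp.add c1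
    have e1 := coef_add k hcp c1
    have e2 := coef_add k c2 hcr
    have e3 := coef_smul k (κ k) (fun x => (ph p x) ^ 2)
    have e4 := coef_ph h.summ k
    have e5 : coef k (F k) = coef k (fun x => (ph p x + κ k * (ph p x) ^ 2) +
        (F k x - (ph p x + κ k * (ph p x) ^ 2))) := coef_congr k fun x _ => by ring
    rw [e5, e2, e1, e3, e4]
  rw [h0, coef_sq h.summ, h.amp] at h1
  set u := coef k (fun x => (P l).eval x * ph (psi l p) x)
  set v := coef k (fun x => ph (psi l p) x * ph (psi l p) x)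
  set r := coef k (fun x => F k x - (ph p x + κ k * (ph p x) ^ 2))
  have h2 : p k = -(κ k * (E ^ 2 * c l l k) + κ k * (2 * E * u) + κ k * v) - r := by linarith
  have hc0 := c_nonneg l l k
  have hE := h.E0
  calc |p k| ≤ |κ k * (E ^ 2 * c l l k)| + |κ k * (2 * E * u)| + |κ k * v| + |r| := by
        rw [h2]
        refine (abs_sub _ _).trans ?_
        rw [abs_neg]
        exact add_le_add (abs_add_three _ _ _) le_rfl
    _ = |κ k| * c l l k * E ^ 2 + |κ k| * (2 * E * |u| + |v|) + |r| := by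
        rw [abs_mul (κ k) (E ^ 2 * c l l k), abs_mul (κ k) (2 * E * u), abs_mul (κ k) v, abs_mul (2 * E) u,
          abs_of_nonneg (by positivity : (0 : ℝ) ≤ E ^ 2 * c l l k),
          abs_of_nonneg (by positivity : (0 : ℝ) ≤ 2 * E)]
        ring
    _ ≤ _ := by
        gcongr

theorem BD.psi_le : nm (psi l p) ≤ ∑ k ∈ Lw l, |p k| + 50 * E ^ 2 := by
  have hs := psi_summ (l := l) h.summ
  have h1 := hs.sum_add_tsum_nat_add 1212
  have h2 : ∑ k ∈ Finset.range 1212, |psi l p k| = ∑ k ∈ Lw l, |p k| := by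
    unfold Lw
    rw [Finset.sum_filter]
    refine Finset.sum_congr rfl fun k _ => ?_
    unfold psi
    by_cases h3 : k = l
    · rw [if_pos h3, if_neg (fun h4 => h4.2 h3), abs_zero]
    · rw [if_neg h3]
      by_cases h4 : Even k
      · rw [if_pos ⟨h4, h3⟩]
      · rw [if_neg (fun h5 => h4 h5.1), h.odd k (Nat.not_even_iff_odd.1 h4), abs_zero]
  have h3 : ∑' k, |psi l p (k + 1212)| = ∑' k, |p (k + 1212)| := by
    refine tsum_congr fun k => ?_
    unfold psi
    have := h.hl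
    rw [if_neg (by omega)]
  rw [h2, h3] at h1
  unfold nm
  rw [← h1]
  have := h.high
  linarith

/-- one step -/
theorem BD.step : nm (psi l p) ≤ 523 / 10 * E ^ 2 + 307 * (2 * E * nm (psi l p) + nm (psi l p) ^ 2) +
    8440 * (E + nm (psi l p)) ^ 2 * (E / Real.sqrt 957 + nm (psi l p)) := by
  have h1 := h.psi_le
  have hs := psi_summ (l := l) h.summ
  set S := nm (psi l p) with hS
  have hS0 : 0 ≤ S := nm_nonneg
  have hE := h.E0
  set R : ℝ := 2 / 5 * (E + S) ^ 2 * (E / Real.sqrt 957 + S) with hR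
  have hR0 : 0 ≤ R := by positivity
  have h2 : ∑ k ∈ Lw l, |p k| ≤ ∑ k ∈ Lw l, (|κ k| * c l l k * E ^ 2 +
      307 * (2 * E * |coef k (fun x => (P l).eval x * ph (psi l p) x)| +
      |coef k (fun x => ph (psi l p) x * ph (psi l p) x)|) + R * Real.sqrt (2 * (k : ℝ) + 1)) := by
    refine Finset.sum_le_sum fun k hk => (h.low hk).trans ?_
    have h3 := h.kap k hk
    gcongr
  rw [Finset.sum_add_distrib, Finset.sum_add_distrib, ← Finset.sum_mul, ← Finset.mul_sum, ← Finset.mul_sum,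
    Finset.sum_add_distrib, ← Finset.mul_sum] at h2
  have h4 := sum_coef_P_ph l hs (Lw l)
  have h5 := sum_coef_ph_ph hs hs (Lw l)
  have h6 := h.S2
  have h7 := sum_sqrt l
  have h8 : (∑ k ∈ Lw l, |κ k| * c l l k) * E ^ 2 ≤ 23 / 10 * E ^ 2 :=
    mul_le_mul_of_nonneg_right h6 (by positivity)
  have h9 : R * ∑ k ∈ Lw l, Real.sqrt (2 * (k : ℝ) + 1) ≤ R * 21100 := mul_le_mul_of_nonneg_left h7 hR0
  have h10 : 2 * E * ∑ k ∈ Lw l, |coef k (fun x => (P l).eval x * ph (psi l p) x)| ≤ 2 * E * S :=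
    mul_le_mul_of_nonneg_left h4 (by positivity)
  have h11 : R * 21100 = 8440 * (E + S) ^ 2 * (E / Real.sqrt 957 + S) := by
    rw [hR]
    ring
  nlinarith

theorem BD.iter {X Y : ℝ} (hX0 : 0 ≤ X) (hX : nm (psi l p) ≤ X * E ^ 2)
    (hY : 523 / 10 + 307 * (2 * X * (16 / 10 ^ 5) + X ^ 2 * (16 / 10 ^ 5) ^ 2) +
      8440 * (16 / 10 ^ 5) * (1 + X * (16 / 10 ^ 5)) ^ 2 * (324 / 10 ^ 4 + X * (16 / 10 ^ 5)) ≤ Y) :
    nm (psi l p) ≤ Y * E ^ 2 := by
  have h1 := h.step
  set S := nm (psi l p) with hS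
  have hS0 : 0 ≤ S := nm_nonneg
  have hE := h.E0
  have hE1 := h.E1
  have hsq : E / Real.sqrt 957 ≤ 324 / 10 ^ 4 * E := by
    have h2 : (3093 / 100 : ℝ) ≤ Real.sqrt 957 := by
      rw [Real.le_sqrt (by norm_num) (by norm_num)]
      norm_num
    rw [div_le_iff₀ (by linarith)]
    nlinarith
  have hXE : X * E ≤ X * (16 / 10 ^ 5) := mul_le_mul_of_nonneg_left hE1 hX0
  set t : ℝ := 16 / 10 ^ 5 with ht
  have ht0 : 0 ≤ t := by norm_num [ht]
  calc S ≤ 523 / 10 * E ^ 2 + 307 * (2 * E * S + S ^ 2) +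
        8440 * (E + S) ^ 2 * (E / Real.sqrt 957 + S) := h1
    _ ≤ 523 / 10 * E ^ 2 + 307 * (2 * E * (X * E ^ 2) + (X * E ^ 2) ^ 2) +
        8440 * (E + X * E ^ 2) ^ 2 * (324 / 10 ^ 4 * E + X * E ^ 2) := by
        gcongr
    _ = (523 / 10 + 307 * (2 * (X * E) + (X * E) ^ 2) +
        8440 * E * (1 + X * E) ^ 2 * (324 / 10 ^ 4 + X * E)) * E ^ 2 := by ring
    _ ≤ (523 / 10 + 307 * (2 * (X * t) + (X * t) ^ 2) +
        8440 * t * (1 + X * t) ^ 2 * (324 / 10 ^ 4 + X * t)) * E ^ 2 := by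
        gcongr
    _ ≤ Y * E ^ 2 := by
        refine mul_le_mul_of_nonneg_right (le_trans (le_of_eq ?_) hY) (by positivity)
        ring

theorem BD.final : nm (psi l p) ≤ 61 * E ^ 2 := by
  have h0 : nm (psi l p) ≤ 2000 * E ^ 2 := by
    rw [nm_psi]
    exact h.near
  have h1 := h.iter (Y := 282) (by norm_num) h0 (by norm_num)
  have h2 := h.iter (Y := 81) (by norm_num) h1 (by norm_num)
  exact h.iter (by norm_num) h2 (by norm_num)

/-- the coefficient `l` of `P_l · ψ` -/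
theorem BD.back : |coef l (fun x => (P l).eval x * ph (psi l p) x)| ≤ 1 / 10 * E ^ 2 := by
  have hs := psi_summ (l := l) h.summ
  have h1 := (coef_P_ph l l hs).tsum_eq
  have hz : ∀ j ∉ Lw l, psi l p j * c l j l = 0 := by
    intro j hj
    unfold psi
    split_ifs with h3
    · rw [zero_mul]
    · by_cases h4 : Even j
      · rw [c_zero, mul_zero]
        unfold Tri
        intro h5
        apply hj
        unfold Lw
        rw [Finset.mem_filter, Finset.mem_range]
        have := h.hl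
        exact ⟨by omega, h4, h3⟩
      · rw [h.odd j (Nat.not_even_iff_odd.1 h4), zero_mul]
  rw [tsum_eq_sum hz] at h1
  rw [← h1]
  have hfin := h.final
  set S := nm (psi l p) with hS
  have hS0 : 0 ≤ S := nm_nonneg
  have hE := h.E0
  have hE1 := h.E1
  set R : ℝ := 2 / 5 * (E + S) ^ 2 * (E / Real.sqrt 957 + S) with hR
  have hR0 : 0 ≤ R := by positivity
  have h2 : |∑ j ∈ Lw l, psi l p j * c l j l| ≤ ∑ k ∈ Lw l, (|κ k| * c l l k * c l k l * E ^ 2 +
      7 / 10 * (2 * E * |coef k (fun x => (P l).eval x * ph (psi l p) x)| +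
      |coef k (fun x => ph (psi l p) x * ph (psi l p) x)|) + R * Real.sqrt (2 * (k : ℝ) + 1)) := by
    refine (Finset.abs_sum_le_sum_abs _ _).trans (Finset.sum_le_sum fun k hk => ?_)
    have hc0 := c_nonneg l k l
    have hc1 : c l k l ≤ 1 := by
      have := sum_c_le l k {l}
      rw [Finset.sum_singleton, abs_of_nonneg hc0] at this
      exact this
    have hkl : k ≠ l := by
      unfold Lw at hk
      exact (Finset.mem_filter.1 hk).2.2
    have e1 : psi l p k = p k := by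
      unfold psi
      rw [if_neg hkl]
    rw [abs_mul, abs_of_nonneg hc0, e1]
    refine (mul_le_mul_of_nonneg_right (h.low hk) hc0).trans ?_
    have h3 := h.M3 k hk
    rw [← hS, ← hR]
    set u := 2 * E * |coef k (fun x => (P l).eval x * ph (psi l p) x)| +
      |coef k (fun x => ph (psi l p) x * ph (psi l p) x)| with hu
    have hu0 : 0 ≤ u := by positivity
    have e2 : |κ k| * u * c l k l ≤ 7 / 10 * u := by
      have : |κ k| * u * c l k l = |κ k| * c l k l * u := by ring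
      rw [this]
      exact mul_le_mul_of_nonneg_right h3 hu0
    have e3 : R * Real.sqrt (2 * (k : ℝ) + 1) * c l k l ≤ R * Real.sqrt (2 * (k : ℝ) + 1) :=
      mul_le_of_le_one_right (by positivity) hc1
    nlinarith
  rw [Finset.sum_add_distrib, Finset.sum_add_distrib, ← Finset.sum_mul, ← Finset.mul_sum, ← Finset.mul_sum,
    Finset.sum_add_distrib, ← Finset.mul_sum] at h2
  have h4 := sum_coef_P_ph l hs (Lw l)
  have h5 := sum_coef_ph_ph hs hs (Lw l)
  have h7 := sum_sqrt l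
  have h8 : (∑ k ∈ Lw l, |κ k| * c l l k * c l k l) * E ^ 2 ≤ 53 / 10 ^ 4 * E ^ 2 :=
    mul_le_mul_of_nonneg_right h.S3 (by positivity)
  have h9 : R * ∑ k ∈ Lw l, Real.sqrt (2 * (k : ℝ) + 1) ≤ R * 21100 := mul_le_mul_of_nonneg_left h7 hR0
  have h10 : 2 * E * ∑ k ∈ Lw l, |coef k (fun x => (P l).eval x * ph (psi l p) x)| ≤ 2 * E * S :=
    mul_le_mul_of_nonneg_left h4 (by positivity)
  have hsq : E / Real.sqrt 957 ≤ 324 / 10 ^ 4 * E := by
    have h2 : (3093 / 100 : ℝ) ≤ Real.sqrt 957 := by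
      rw [Real.le_sqrt (by norm_num) (by norm_num)]
      norm_num
    rw [div_le_iff₀ (by linarith)]
    nlinarith
  have h11 : R * 21100 ≤ 8440 * (E + 61 * E ^ 2) ^ 2 * (324 / 10 ^ 4 * E + 61 * E ^ 2) := by
    have : R * 21100 = 8440 * (E + S) ^ 2 * (E / Real.sqrt 957 + S) := by
      rw [hR]
      ring
    rw [this]
    gcongr
  have h12 : 2 * E * S ≤ 2 * E * (61 * E ^ 2) := by gcongr
  have h13 : S * S ≤ (61 * E ^ 2) * (61 * E ^ 2) := by gcongr
  have h14 : |∑ j ∈ Lw l, psi l p j * c l j l| ≤ (53 / 10 ^ 4 + 7 / 10 * (2 * 61 * E + 61 ^ 2 * E ^ 2) +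
      8440 * E * (1 + 61 * E) ^ 2 * (324 / 10 ^ 4 + 61 * E)) * E ^ 2 := by
    nlinarith
  refine h14.trans (mul_le_mul_of_nonneg_right ?_ (by positivity))
  calc 53 / 10 ^ 4 + 7 / 10 * (2 * 61 * E + 61 ^ 2 * E ^ 2) + 8440 * E * (1 + 61 * E) ^ 2 * (324 / 10 ^ 4 + 61 * E)
      ≤ 53 / 10 ^ 4 + 7 / 10 * (2 * 61 * (16 / 10 ^ 5) + 61 ^ 2 * (16 / 10 ^ 5) ^ 2) +
        8440 * (16 / 10 ^ 5) * (1 + 61 * (16 / 10 ^ 5)) ^ 2 * (324 / 10 ^ 4 + 61 * (16 / 10 ^ 5)) := by
        gcongr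
    _ ≤ 1 / 10 := by norm_num

/-- the result -/
theorem BD.result {Fl : ℝ → ℝ} {D D' : ℝ} (hD' : |D'| ≤ 1 / 10 ^ 7) (hc : ContinuousOn Fl (Icc (-1) 1))
    (ht : ∀ x ∈ Icc (-1 : ℝ) 1, |Fl x - (D * ph p x + (1 / 2 + D') * (ph p x) ^ 2)| ≤ 1 / 2500 * |ph p x| ^ 3) :
    |coef l Fl - (D * E + c l l l / 2 * E ^ 2)| ≤ 1 / 10 ^ 4 * E ^ 2 := by
  have hcp := ph_continuousOn h.summ
  have hcr : ContinuousOn (fun x => Fl x - (D * ph p x + (1 / 2 + D') * (ph p x) ^ 2)) (Icc (-1) 1) :=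
    hc.sub ((hcp.const_mul _).add ((hcp.pow 2).const_mul _))
  have hr := rem_le h.summ h.E0 (by norm_num : (0 : ℝ) ≤ 1 / 2500) h.hl h.amp l hcr ht
  have h1 : coef l Fl = (D * p l + (1 / 2 + D') * coef l (fun x => (ph p x) ^ 2)) +
      coef l (fun x => Fl x - (D * ph p x + (1 / 2 + D') * (ph p x) ^ 2)) := by
    have c0 : ContinuousOn (fun x => D * ph p x) (Icc (-1) 1) := hcp.const_mul _
    have c1 : ContinuousOn (fun x => (1 / 2 + D') * (ph p x) ^ 2) (Icc (-1) 1) := (hcp.pow 2).const_mul _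
    have c2 : ContinuousOn (fun x => D * ph p x + (1 / 2 + D') * (ph p x) ^ 2) (Icc (-1) 1) := c0.add c1
    have e1 := coef_add l c0 c1
    have e2 := coef_add l c2 hcr
    have e3 := coef_smul l (1 / 2 + D') (fun x => (ph p x) ^ 2)
    have e4 := coef_ph h.summ l
    have e6 := coef_smul l D (ph p)
    have e5 : coef l Fl = coef l (fun x => (D * ph p x + (1 / 2 + D') * (ph p x) ^ 2) +
        (Fl x - (D * ph p x + (1 / 2 + D') * (ph p x) ^ 2))) := coef_congr l fun x _ => by ring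
    rw [e5, e2, e1, e3, e6, e4]
  rw [coef_sq h.summ, h.amp] at h1
  have hu := h.back
  have hs := psi_summ (l := l) h.summ
  have hv : |coef l (fun x => ph (psi l p) x * ph (psi l p) x)| ≤ nm (psi l p) * nm (psi l p) := by
    have := sum_coef_ph_ph hs hs {l}
    rwa [Finset.sum_singleton] at this
  have hfin := h.final
  set S := nm (psi l p) with hS
  have hS0 : 0 ≤ S := nm_nonneg
  set u := coef l (fun x => (P l).eval x * ph (psi l p) x)
  set v := coef l (fun x => ph (psi l p) x * ph (psi l p) x)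
  set r := coef l (fun x => Fl x - (D * ph p x + (1 / 2 + D') * (ph p x) ^ 2))
  have hE := h.E0
  have hE1 := h.E1
  have hg0 := c_nonneg l l l
  have hg1 : c l l l ≤ 1 := by
    have := sum_c_le l l {l}
    rwa [Finset.sum_singleton, abs_of_nonneg hg0] at this
  have hsq : Real.sqrt (2 * (l : ℝ) + 1) ≤ 31 := by
    rw [Real.sqrt_le_left (by norm_num), h.hl]
    norm_num
  have hsq0 : 0 ≤ Real.sqrt (2 * (l : ℝ) + 1) := Real.sqrt_nonneg _
  have hsq2 : E / Real.sqrt 957 ≤ 324 / 10 ^ 4 * E := by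
    have h2 : (3093 / 100 : ℝ) ≤ Real.sqrt 957 := by
      rw [Real.le_sqrt (by norm_num) (by norm_num)]
      norm_num
    rw [div_le_iff₀ (by linarith)]
    nlinarith
  have hr2 : |r| ≤ 1 / 10 ^ 6 * E ^ 2 := by
    refine hr.trans ?_
    calc 1 / 2500 * (E + S) ^ 2 * (E / Real.sqrt 957 + S) * Real.sqrt (2 * (l : ℝ) + 1)
        ≤ 1 / 2500 * (E + 61 * E ^ 2) ^ 2 * (324 / 10 ^ 4 * E + 61 * E ^ 2) * 31 := by gcongr
      _ = (1 / 2500 * E * (1 + 61 * E) ^ 2 * (324 / 10 ^ 4 + 61 * E) * 31) * E ^ 2 := by ring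
      _ ≤ (1 / 2500 * (16 / 10 ^ 5) * (1 + 61 * (16 / 10 ^ 5)) ^ 2 * (324 / 10 ^ 4 + 61 * (16 / 10 ^ 5)) * 31) * E ^ 2 := by
          gcongr
      _ ≤ 1 / 10 ^ 6 * E ^ 2 := by
          refine mul_le_mul_of_nonneg_right ?_ (by positivity)
          norm_num
  have hv2 : |v| ≤ (61 ^ 2 * (16 / 10 ^ 5) ^ 2) * E ^ 2 := by
    refine hv.trans ?_
    calc S * S ≤ (61 * E ^ 2) * (61 * E ^ 2) := by gcongr
      _ = (61 ^ 2 * E ^ 2) * E ^ 2 := by ring
      _ ≤ _ := by gcongr
  have hu2 : |2 * E * u| ≤ 2 * (16 / 10 ^ 5) * (1 / 10 * E ^ 2) := by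
    rw [abs_mul, abs_of_nonneg (by positivity : (0 : ℝ) ≤ 2 * E)]
    gcongr
  have hmain : coef l Fl - (D * E + c l l l / 2 * E ^ 2) =
      D' * (E ^ 2 * c l l l) + (1 / 2 + D') * (2 * E * u + v) + r := by
    rw [h1]
    ring
  rw [hmain]
  have hD2 : |1 / 2 + D'| ≤ 51 / 100 := by
    have := abs_le.1 hD'
    rw [abs_le]
    constructor <;> norm_num at this ⊢ <;> linarith [this.1, this.2]
  calc |D' * (E ^ 2 * c l l l) + (1 / 2 + D') * (2 * E * u + v) + r|
      ≤ |D'| * (E ^ 2 * c l l l) + |1 / 2 + D'| * (|2 * E * u| + |v|) + |r| := by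
        refine (abs_add_three _ _ _).trans ?_
        rw [abs_mul, abs_mul (1 / 2 + D'), abs_of_nonneg (by positivity : (0 : ℝ) ≤ E ^ 2 * c l l l)]
        gcongr
        exact abs_add_le _ _
    _ ≤ 1 / 10 ^ 7 * (E ^ 2 * 1) + 51 / 100 * (2 * (16 / 10 ^ 5) * (1 / 10 * E ^ 2) +
          (61 ^ 2 * (16 / 10 ^ 5) ^ 2) * E ^ 2) + 1 / 10 ^ 6 * E ^ 2 := by
        gcongr
    _ = (1 / 10 ^ 7 + 51 / 100 * (2 * (16 / 10 ^ 5) * (1 / 10) + 61 ^ 2 * (16 / 10 ^ 5) ^ 2) + 1 / 10 ^ 6) * E ^ 2 := by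
        ring
    _ ≤ 1 / 10 ^ 4 * E ^ 2 := by
        refine mul_le_mul_of_nonneg_right ?_ (by positivity)
        norm_num

end Main

end Pool.Agent.H11.SB
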