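import Pool.Agent.H11.SB.Orth

/-!
# SB.Conv : coefficients of products of absolutely convergent Legendre series
-/

set_option autoImplicit false

open Polynomial MeasureTheory intervalIntegral Set
open Pool.Agent.H27.Leg

namespace Pool.Agent.H11.SB

variable {p q : ℕ → ℝ}

theorem coef_mul_ph {f : ℝ → ℝ} {M : ℝ} (hf : ContinuousOn f (Icc (-1) 1))
    (hM : ∀ x ∈ Icc (-1 : ℝ) 1, |f x| ≤ M) (hq : Summable fun k => |q k|) (k : ℕ) :
    HasSum (fun j => q j * coef k (fun x => f x * (P j).eval x)) (coef k (fun x => f x * ph q x)) := by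
  have hM0 : 0 ≤ M := (abs_nonneg _).trans (hM 0 (by norm_num))
  have h1 : HasSum (fun j => ∫ x in (-1 : ℝ)..1, f x * (q j * (P j).eval x) * (P k).eval x)
      (∫ x in (-1 : ℝ)..1, f x * ph q x * (P k).eval x) := by
    refine intervalIntegral.hasSum_integral_of_dominated_convergence (fun j _ => M * |q j|) ?_ ?_ ?_ ?_ ?_
    · intro j
      have hc : ContinuousOn (fun x => f x * (q j * (P j).eval x) * (P k).eval x) (Icc (-1) 1) :=
        (hf.mul ((P j).continuous.const_mul _).continuousOn).mul (P k).continuous.continuousOn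
      rw [uIoc_of_le (by norm_num)]
      exact (hc.mono Ioc_subset_Icc_self).aestronglyMeasurable measurableSet_Ioc
    · intro j
      refine Filter.Eventually.of_forall fun x hx => ?_
      rw [uIoc_of_le (by norm_num)] at hx
      have hx' : x ∈ Icc (-1 : ℝ) 1 := Ioc_subset_Icc_self hx
      rw [Real.norm_eq_abs, abs_mul, abs_mul, abs_mul]
      have e1 := abs_le_one j (abs_le.2 hx')
      have e2 := abs_le_one k (abs_le.2 hx')
      calc |f x| * (|q j| * |(P j).eval x|) * |(P k).eval x| ≤ M * (|q j| * 1) * 1 := by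
            gcongr
            exact hM x hx'
        _ = M * |q j| := by ring
    · exact Filter.Eventually.of_forall fun x _ => hq.mul_left M
    · exact intervalIntegrable_const
    · refine Filter.Eventually.of_forall fun x hx => ?_
      rw [uIoc_of_le (by norm_num)] at hx
      have hx' : x ∈ Icc (-1 : ℝ) 1 := Ioc_subset_Icc_self hx
      exact ((ph_summable hq (abs_le.2 hx')).hasSum.mul_left (f x)).mul_right _
  have h2 := h1.mul_left ((2 * (k : ℝ) + 1) / 2)
  have h3 : (fun j => q j * coef k (fun x => f x * (P j).eval x)) = fun j =>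
      (2 * (k : ℝ) + 1) / 2 * ∫ x in (-1 : ℝ)..1, f x * (q j * (P j).eval x) * (P k).eval x := by
    funext j
    unfold coef
    rw [mul_left_comm, ← intervalIntegral.integral_const_mul]
    congr 1
    refine integral_congr fun x _ => ?_
    simp only
    ring
  rw [h3]
  exact h2

theorem coef_PP (i j k : ℕ) : coef k (fun x => (P i).eval x * (P j).eval x) = c i j k := by
  unfold coef
  rw [int_PPP]
  have : (2 * (k : ℝ) + 1) ≠ 0 := by positivity
  field_simp

theorem coef_P (j k : ℕ) : coef k (fun x => (P j).eval x) = if j = k then 1 else 0 := by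
  unfold coef
  rw [int_PP]
  have : (2 * (k : ℝ) + 1) ≠ 0 := by positivity
  split_ifs with h
  · subst h
    field_simp
  · simp

theorem coef_ph (hp : Summable fun k => |p k|) (k : ℕ) : coef k (ph p) = p k := by
  have h := coef_mul_ph (f := fun _ => (1 : ℝ)) (M := 1) continuousOn_const (by simp) hp k
  simp only [one_mul, coef_P] at h
  have h2 : HasSum (fun j => p j * if j = k then (1 : ℝ) else 0) (p k) := by
    have h3 := hasSum_ite_eq k (p k)
    convert h3 using 1
    ext j
    split_ifs with hj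
    · rw [hj, mul_one]
    · rw [mul_zero]
  exact h.unique h2

theorem sum_c_le (i j : ℕ) (s : Finset ℕ) : ∑ k ∈ s, |c i j k| ≤ 1 := by
  obtain ⟨N, hN⟩ := s.exists_nat_subset_range
  have h1 : ∑ k ∈ s, |c i j k| ≤ ∑ k ∈ Finset.range (max N (i + j + 1)), |c i j k| :=
    Finset.sum_le_sum_of_subset_of_nonneg
      (hN.trans (Finset.range_mono (le_max_left _ _))) fun _ _ _ => abs_nonneg _
  refine h1.trans (le_of_eq ?_)
  rw [← c_sum i j (max N (i + j + 1)) (le_max_right _ _)]
  exact Finset.sum_congr rfl fun k _ => abs_of_nonneg (c_nonneg i j k)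

theorem sum_coef_le {f : ℝ → ℝ} {M N : ℝ} (hf : ContinuousOn f (Icc (-1) 1))
    (hM : ∀ x ∈ Icc (-1 : ℝ) 1, |f x| ≤ M) (hq : Summable fun k => |q k|) (s : Finset ℕ)
    (hN : ∀ j, ∑ k ∈ s, |coef k (fun x => f x * (P j).eval x)| ≤ N) :
    ∑ k ∈ s, |coef k (fun x => f x * ph q x)| ≤ N * nm q := by
  have hN0 : 0 ≤ N := (Finset.sum_nonneg fun _ _ => abs_nonneg _).trans (hN 0)
  have hb : ∀ k ∈ s, ∀ j, |coef k (fun x => f x * (P j).eval x)| ≤ N := fun k hk j =>
    (Finset.single_le_sum (f := fun k => |coef k (fun x => f x * (P j).eval x)|)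
      (fun _ _ => abs_nonneg _) hk).trans (hN j)
  have hs : ∀ k ∈ s, Summable fun j => |q j| * |coef k (fun x => f x * (P j).eval x)| := fun k hk =>
    Summable.of_nonneg_of_le (fun j => mul_nonneg (abs_nonneg _) (abs_nonneg _))
      (fun j => mul_le_mul_of_nonneg_left (hb k hk j) (abs_nonneg _)) (hq.mul_right N)
  have h1 : ∀ k ∈ s, |coef k (fun x => f x * ph q x)| ≤
      ∑' j, |q j| * |coef k (fun x => f x * (P j).eval x)| := by
    intro k hk
    rw [← (coef_mul_ph hf hM hq k).tsum_eq, ← Real.norm_eq_abs]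
    have h2 : Summable fun j => ‖q j * coef k (fun x => f x * (P j).eval x)‖ := by
      simpa only [Real.norm_eq_abs, abs_mul] using hs k hk
    refine (norm_tsum_le_tsum_norm h2).trans (le_of_eq ?_)
    simp only [Real.norm_eq_abs, abs_mul]
  refine (Finset.sum_le_sum h1).trans ?_
  rw [← Summable.tsum_finsetSum hs]
  unfold nm
  rw [← tsum_mul_left]
  refine Summable.tsum_le_tsum (fun j => ?_) (summable_sum hs) (hq.mul_left N)
  rw [← Finset.mul_sum, mul_comm N]
  exact mul_le_mul_of_nonneg_left (hN j) (abs_nonneg _)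

/-- `P_i · ψ` -/
theorem sum_coef_P_ph (i : ℕ) (hq : Summable fun k => |q k|) (s : Finset ℕ) :
    ∑ k ∈ s, |coef k (fun x => (P i).eval x * ph q x)| ≤ nm q := by
  have h := sum_coef_le (f := fun x => (P i).eval x) (M := 1) (N := 1) (P i).continuous.continuousOn
    (fun x hx => abs_le_one i (abs_le.2 hx)) hq s (fun j => by
      simp only [coef_PP]
      exact sum_c_le i j s)
  rwa [one_mul] at h

/-- `φ · ψ` -/
theorem sum_coef_ph_ph (hp : Summable fun k => |p k|) (hq : Summable fun k => |q k|) (s : Finset ℕ) :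
    ∑ k ∈ s, |coef k (fun x => ph p x * ph q x)| ≤ nm p * nm q := by
  refine sum_coef_le (ph_continuousOn hp) (fun x hx => abs_ph_le hp (abs_le.2 hx)) hq s fun j => ?_
  have h := sum_coef_P_ph j hp s
  simpa only [mul_comm] using h

/-- the coefficient `a` of `P_b · ψ` -/
theorem coef_P_ph (i k : ℕ) (hq : Summable fun k => |q k|) :
    HasSum (fun j => q j * c i j k) (coef k (fun x => (P i).eval x * ph q x)) := by
  have h := coef_mul_ph (f := fun x => (P i).eval x) (M := 1) (P i).continuous.continuousOn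
    (fun x hx => abs_le_one i (abs_le.2 hx)) hq k
  simpa only [coef_PP] using h

end Pool.Agent.H11.SB
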