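import Pool.Agent.H27.Leg.Adams
import Pool.Agent.H27.Leg.Bd

/-!
# SB.Orth : orthogonality of the Legendre polynomials, coefficients of absolutely convergent Legendre series
-/

set_option autoImplicit false

open Polynomial MeasureTheory intervalIntegral Set
open Pool.Agent.H27.Leg

namespace Pool.Agent.H11.SB

theorem int_P {n : ℕ} (hn : n ≠ 0) : ∫ x in (-1 : ℝ)..1, (P n).eval x = 0 := by
  have h0 : (0 : ℝ) < (n : ℝ) * ((n : ℝ) + 1) := by
    have : (0 : ℝ) < n := Nat.cast_pos.2 (Nat.pos_of_ne_zero hn)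
    positivity
  have h1 : ∫ x in (-1 : ℝ)..1, (derivative ((1 - X ^ 2) * derivative (P n))).eval x = 0 := by
    rw [integral_eq_sub_of_hasDerivAt (f := fun x => ((1 - X ^ 2) * derivative (P n)).eval x)
      (fun x _ => ((1 - X ^ 2) * derivative (P n)).hasDerivAt x)
      ((derivative ((1 - X ^ 2) * derivative (P n))).continuous.intervalIntegrable _ _)]
    simp
  rw [ode n] at h1
  simp only [eval_neg, eval_mul, eval_C, intervalIntegral.integral_neg, intervalIntegral.integral_const_mul] at h1
  have h2 : (n : ℝ) * ((n : ℝ) + 1) * ∫ x in (-1 : ℝ)..1, (P n).eval x = 0 := by linarith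
  rcases mul_eq_zero.1 h2 with h | h
  · exact absurd h h0.ne'
  · exact h

theorem int_P_zero : ∫ x in (-1 : ℝ)..1, (P 0).eval x = 2 := by
  rw [P_zero]
  simp
  norm_num

theorem int_sum_P (N : ℕ) (g : ℕ → ℝ) :
    ∫ x in (-1 : ℝ)..1, ∑ L ∈ Finset.range (N + 1), g L * (P L).eval x = 2 * g 0 := by
  rw [intervalIntegral.integral_finsetSum]
  · rw [Finset.sum_eq_single 0]
    · rw [intervalIntegral.integral_const_mul, int_P_zero]
      ring
    · intro L _ hL
      rw [intervalIntegral.integral_const_mul, int_P hL, mul_zero]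
    · intro h
      exact absurd (Finset.mem_range.2 (Nat.succ_pos N)) h
  · intro L _
    exact ((P L).continuous.const_mul _).intervalIntegrable _ _

theorem int_PP (a b : ℕ) :
    ∫ x in (-1 : ℝ)..1, (P a).eval x * (P b).eval x = if a = b then 2 / (2 * (a : ℝ) + 1) else 0 := by
  have h1 : ∀ x : ℝ, (P a).eval x * (P b).eval x =
      ∑ L ∈ Finset.range (a + b + 1), c a b L * (P L).eval x := fun x => P_mul_eval a b _ le_rfl x
  rw [integral_congr (g := fun x => ∑ L ∈ Finset.range (a + b + 1), c a b L * (P L).eval x)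
    (fun x _ => h1 x), int_sum_P, c_zero_right]
  split_ifs <;> ring

theorem int_PPP (a b k : ℕ) :
    ∫ x in (-1 : ℝ)..1, (P a).eval x * (P b).eval x * (P k).eval x =
      2 / (2 * (k : ℝ) + 1) * c a b k := by
  have h1 : ∀ x : ℝ, (P a).eval x * (P b).eval x * (P k).eval x =
      ∑ L ∈ Finset.range (a + b + k + 1), c a b L * ((P L).eval x * (P k).eval x) := by
    intro x
    rw [P_mul_eval a b (a + b + k + 1) (by omega) x, Finset.sum_mul]
    refine Finset.sum_congr rfl fun L _ => ?_
    ring
  rw [integral_congr (g := fun x => ∑ L ∈ Finset.range (a + b + k + 1), c a b L * ((P L).eval x * (P k).eval x))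
    (fun x _ => h1 x), intervalIntegral.integral_finsetSum]
  · rw [Finset.sum_eq_single k]
    · rw [intervalIntegral.integral_const_mul, int_PP, if_pos rfl]
      ring
    · intro L _ hL
      rw [intervalIntegral.integral_const_mul, int_PP, if_neg hL, mul_zero]
    · intro h
      exact absurd (Finset.mem_range.2 (by omega)) h
  · intro L _
    exact (((P L).continuous.mul (P k).continuous).const_mul _).intervalIntegrable _ _

/-- Cauchy-Schwarz -/
theorem int_abs_PP (a b : ℕ) :
    ∫ x in (-1 : ℝ)..1, |(P a).eval x| * |(P b).eval x| ≤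
      2 / (Real.sqrt (2 * (a : ℝ) + 1) * Real.sqrt (2 * (b : ℝ) + 1)) := by
  set u := Real.sqrt (2 * (a : ℝ) + 1) with hu
  set v := Real.sqrt (2 * (b : ℝ) + 1) with hv
  have hu0 : 0 < u := Real.sqrt_pos.2 (by positivity)
  have hv0 : 0 < v := Real.sqrt_pos.2 (by positivity)
  have hu2 : u ^ 2 = 2 * (a : ℝ) + 1 := Real.sq_sqrt (by positivity)
  have hv2 : v ^ 2 = 2 * (b : ℝ) + 1 := Real.sq_sqrt (by positivity)
  -- `|f||g| ≤ (u/v f² + v/u g²)/2`
  have h1 : ∀ x : ℝ, |(P a).eval x| * |(P b).eval x| ≤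
      u / (2 * v) * ((P a).eval x * (P a).eval x) + v / (2 * u) * ((P b).eval x * (P b).eval x) := by
    intro x
    have h2 : 0 ≤ (u * |(P a).eval x| - v * |(P b).eval x|) ^ 2 := sq_nonneg _
    have h3 : |(P a).eval x| ^ 2 = (P a).eval x * (P a).eval x := by rw [sq_abs]; ring
    have h4 : |(P b).eval x| ^ 2 = (P b).eval x * (P b).eval x := by rw [sq_abs]; ring
    rw [← h3, ← h4]
    have h5 : u / (2 * v) * |(P a).eval x| ^ 2 + v / (2 * u) * |(P b).eval x| ^ 2 -
        |(P a).eval x| * |(P b).eval x| =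
        (u * |(P a).eval x| - v * |(P b).eval x|) ^ 2 / (2 * u * v) := by
      field_simp
      ring
    have h6 : 0 ≤ (u * |(P a).eval x| - v * |(P b).eval x|) ^ 2 / (2 * u * v) := by positivity
    linarith
  have hc1 : Continuous fun x : ℝ => |(P a).eval x| * |(P b).eval x| :=
    (P a).continuous.abs.mul (P b).continuous.abs
  have hca : Continuous fun x : ℝ => u / (2 * v) * ((P a).eval x * (P a).eval x) :=
    ((P a).continuous.mul (P a).continuous).const_mul _
  have hcb : Continuous fun x : ℝ => v / (2 * u) * ((P b).eval x * (P b).eval x) :=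
    ((P b).continuous.mul (P b).continuous).const_mul _
  have h7 : ∫ x in (-1 : ℝ)..1, |(P a).eval x| * |(P b).eval x| ≤
      ∫ x in (-1 : ℝ)..1, (u / (2 * v) * ((P a).eval x * (P a).eval x) +
        v / (2 * u) * ((P b).eval x * (P b).eval x)) :=
    integral_mono_on (by norm_num) (hc1.intervalIntegrable _ _)
      ((hca.add hcb).intervalIntegrable _ _) fun x _ => h1 x
  rw [intervalIntegral.integral_add (hca.intervalIntegrable _ _) (hcb.intervalIntegrable _ _),
    intervalIntegral.integral_const_mul, intervalIntegral.integral_const_mul, int_PP, int_PP, if_pos rfl,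
    if_pos rfl, ← hu2, ← hv2] at h7
  refine h7.trans (le_of_eq ?_)
  field_simp
  ring

/-- the Legendre coefficient -/
noncomputable def coef (k : ℕ) (f : ℝ → ℝ) : ℝ :=
  (2 * (k : ℝ) + 1) / 2 * ∫ x in (-1 : ℝ)..1, f x * (P k).eval x

/-- the function with the coefficients `p` -/
noncomputable def ph (p : ℕ → ℝ) (x : ℝ) : ℝ := ∑' k, p k * (P k).eval x

/-- the `l^1` norm -/
noncomputable def nm (p : ℕ → ℝ) : ℝ := ∑' k, |p k|

variable {p q : ℕ → ℝ}

theorem ph_summable (hp : Summable fun k => |p k|) {x : ℝ} (hx : |x| ≤ 1) :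
    Summable fun k => p k * (P k).eval x := by
  refine Summable.of_norm_bounded hp fun k => ?_
  rw [Real.norm_eq_abs, abs_mul]
  exact mul_le_of_le_one_right (abs_nonneg _) (abs_le_one k hx)

theorem abs_ph_le (hp : Summable fun k => |p k|) {x : ℝ} (hx : |x| ≤ 1) : |ph p x| ≤ nm p := by
  unfold ph nm
  have h := ph_summable hp hx
  rw [← Real.norm_eq_abs]
  refine (norm_tsum_le_tsum_norm h.norm).trans ?_
  refine h.norm.tsum_le_tsum (fun k => ?_) hp
  rw [Real.norm_eq_abs, abs_mul]
  exact mul_le_of_le_one_right (abs_nonneg _) (abs_le_one k hx)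

theorem ph_continuousOn (hp : Summable fun k => |p k|) : ContinuousOn (ph p) (Icc (-1) 1) := by
  unfold ph
  refine continuousOn_tsum (fun k => ((P k).continuous.const_mul _).continuousOn) hp fun k x hx => ?_
  rw [Real.norm_eq_abs, abs_mul]
  exact mul_le_of_le_one_right (abs_nonneg _) (abs_le_one k (abs_le.2 hx))

end Pool.Agent.H11.SB
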