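import Pool.Agent.H11.SB.Boot
import Pool.Agent.H30.SB.Boot

/-!
# SB.TB : the quadratic approximation of the moment of mode `478`
-/

set_option autoImplicit false

namespace Pool.Agent.H11.SB

open Pool.Agent.H68.SC (jl djl)
open Pool.Agent.H27.Leg (P c c_nonneg)
open Pool.Agent.H30.SB (One TB IE_bd tay_low tay_l Ph_ev_cont)
open Set SF

theorem ph_ev (a : ℕ → ℝ) : ph a = ev a := rfl

theorem mem_Lw {l k : ℕ} : k ∈ Lw l ↔ k < 1212 ∧ Even k ∧ k ≠ l := by
  unfold Lw
  rw [Finset.mem_filter, Finset.mem_range]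

theorem sum_Lw_le {f : ℕ → ℝ} {B : ℝ} (h0 : ∀ k, 0 ≤ f k) (hz : ∀ k, 957 ≤ k → f k = 0)
    (hB : ∑ k ∈ (Finset.range 957).erase 478, f k ≤ B) : ∑ k ∈ Lw 478, f k ≤ B := by
  refine le_trans ?_ hB
  set T := (Finset.range 957).erase 478 with hT
  have h1 : ∑ k ∈ Lw 478, f k ≤ ∑ k ∈ Lw 478 ∪ T, f k :=
    Finset.sum_le_sum_of_subset_of_nonneg Finset.subset_union_left fun k _ _ => h0 k
  refine h1.trans (le_of_eq ?_)
  symm
  refine Finset.sum_subset Finset.subset_union_right fun k hk hk2 => ?_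
  rw [Finset.mem_union] at hk
  rcases hk with hk | hk
  · rw [mem_Lw] at hk
    rw [hT, Finset.mem_erase, Finset.mem_range, not_and_or, not_not] at hk2
    rcases hk2 with h3 | h3
    · exact absurd h3 hk.2.2
    · exact hz k (by omega)
  · exact absurd hk hk2

theorem c_ll_zero' {k : ℕ} (hk : 957 ≤ k) : c 478 478 k = 0 := SFC.c_ll_zero (by omega)

theorem norm_div_sub {F A q B : ℝ} (hA : A ≠ 0) (h : |F - A * q| ≤ |A| * B) : |F / A - q| ≤ B := by
  have h1 : F / A - q = (F - A * q) / A := by field_simp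
  rw [h1, abs_div, div_le_iff₀ (abs_pos.2 hA)]
  linarith

theorem bd (a : ℕ → ℝ) (E : ℝ) (h : One a E) :
    BD 478 a E Kq (fun k x => Pool.Agent.H30.SB.Ph k (rho + ev a x) / (rho ^ 2 * jl k rho)) := by
  have hE := IE_bd h.mem
  have hsmall := h.small
  have hrho : (0 : ℝ) < rho := SN.rho_pos
  have hx3 : ∀ x ∈ Icc (-1 : ℝ) 1, |ev a x| ≤ 3 / 10 ^ 4 := fun x hx =>
    Pool.Agent.H30.SB.ev_small h.summ hsmall (abs_le.2 hx)
  have hlow : ∀ k ∈ Lw 478, Even k ∧ k ≠ ell ∧ k ≤ 1210 := by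
    intro k hk
    rw [mem_Lw] at hk
    obtain ⟨j, hj⟩ := hk.2.1.two_dvd
    exact ⟨hk.2.1, hk.2.2, by omega⟩
  refine
    { hl := rfl
      E0 := by
        have h1 : (0 : ℝ) ≤ 5 / 10 ^ 5 := by norm_num
        linarith [hE.1]
      E1 := hE.2
      summ := h.summ
      odd := h.odd
      amp := h.amp
      near := h.near
      high := h.high
      kap := ?_
      S2 := ?_
      S3 := ?_
      M3 := ?_
      cont := ?_
      tay := ?_
      mom := ?_ }
  · intro k hk
    obtain ⟨h1, h2, h3⟩ := hlow k hk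
    have hj := jl_ne k h1 h2
    have h4 := K_le k h1 h2 h3
    have h5 : |djl k rho / jl k rho| ≤ 612 := by
      rw [abs_div, div_le_iff₀ (abs_pos.2 hj)]
      exact h4
    have h6 := abs_Kq_le k
    linarith
  · refine sum_Lw_le (fun k => mul_nonneg (abs_nonneg _) (c_nonneg _ _ _))
      (fun k hk => by rw [c_ll_zero' hk, mul_zero]) ?_
    have h1 := S2_le
    simpa only [mul_comm] using h1
  · refine sum_Lw_le (fun k => mul_nonneg (mul_nonneg (abs_nonneg _) (c_nonneg _ _ _)) (c_nonneg _ _ _))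
      (fun k hk => by rw [c_ll_zero' hk, mul_zero, zero_mul]) ?_
    have h1 := S3_le
    have h2 : ∀ k, |Kq k| * c 478 478 k * c 478 k 478 = c 478 478 k * c 478 k 478 * |Kq k| := fun k => by ring
    simp only [h2]
    refine h1.trans ?_
    norm_num
  · intro k hk
    obtain ⟨h1, h2, h3⟩ := hlow k hk
    have h4 := back_le k h2
    unfold ell at h4
    linarith
  · intro k hk
    exact (Ph_ev_cont k h.summ h.one).div_const _
  · intro k hk x hx
    obtain ⟨h1, h2, h3⟩ := hlow k hk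
    have hj := jl_ne k h1 h2
    have h4 := tay_low k h3 hj (K_le k h1 h2 h3) (hx3 x hx)
    have hA : rho ^ 2 * jl k rho ≠ 0 := mul_ne_zero (by positivity) hj
    rw [ph_ev]
    refine norm_div_sub hA ?_
    rw [abs_mul, abs_of_pos (by positivity : (0 : ℝ) < rho ^ 2)]
    exact h4
  · intro k hk
    obtain ⟨h1, h2, h3⟩ := hlow k hk
    have h4 := h.mom k h1 h2 h3
    rw [Pool.Agent.H30.SB.Mom_eq] at h4
    have h5 : ∀ x : ℝ, Pool.Agent.H30.SB.Ph k (rho + ev a x) / (rho ^ 2 * jl k rho) * (P k).eval x =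
        (rho ^ 2 * jl k rho)⁻¹ * (Pool.Agent.H30.SB.Ph k (rho + ev a x) * (P k).eval x) := fun x => by
      rw [div_eq_inv_mul, mul_assoc]
    simp only [h5]
    rw [intervalIntegral.integral_const_mul, h4, mul_zero]

theorem tb (a : ℕ → ℝ) (E : ℝ) (h : One a E) : TB a E := by
  have hE := IE_bd h.mem
  have hsmall := h.small
  have hrho : (0 : ℝ) < rho := SN.rho_pos
  have hrho1 : (1211 : ℝ) < rho := rho_gt'
  have hx3 : ∀ x ∈ Icc (-1 : ℝ) 1, |ev a x| ≤ 3 / 10 ^ 4 := fun x hx =>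
    Pool.Agent.H30.SB.ev_small h.summ hsmall (abs_le.2 hx)
  have hd : djl 478 rho ≠ 0 := djl_ell_ne
  have hDa : |jl 478 rho| ≤ 1 / 10 ^ 7 * |djl 478 rho| := D_abs
  have hD : |jl 478 rho / djl 478 rho| ≤ 1 / 10 ^ 7 := by
    rw [abs_div, div_le_iff₀ (abs_pos.2 hd)]
    exact hDa
  have hD' : |jl 478 rho / djl 478 rho / rho| ≤ 1 / 10 ^ 7 := by
    rw [abs_div, abs_of_pos hrho, div_le_iff₀ hrho]
    refine hD.trans ?_
    nlinarith
  have hA : rho ^ 2 * djl 478 rho ≠ 0 := mul_ne_zero (by positivity) hd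
  have key := (bd a E h).result (Fl := fun x => Pool.Agent.H30.SB.Ph 478 (rho + ev a x) / (rho ^ 2 * djl 478 rho))
    (D := jl 478 rho / djl 478 rho) hD' ((Ph_ev_cont 478 h.summ h.one).div_const _) (by
      intro x hx
      rw [ph_ev]
      refine norm_div_sub hA ?_
      rw [abs_mul, abs_of_pos (by positivity : (0 : ℝ) < rho ^ 2)]
      exact tay_l hd hDa (hx3 x hx))
  have hco : coef 478 (fun x => Pool.Agent.H30.SB.Ph 478 (rho + ev a x) / (rho ^ 2 * djl 478 rho)) =
      957 / 2 * Mom ell a / (rho ^ 2 * djl 478 rho) := by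
    unfold coef
    have h5 : ∀ x : ℝ, Pool.Agent.H30.SB.Ph 478 (rho + ev a x) / (rho ^ 2 * djl 478 rho) * (P 478).eval x =
        (rho ^ 2 * djl 478 rho)⁻¹ * (Pool.Agent.H30.SB.Ph 478 (rho + ev a x) * (P 478).eval x) := fun x => by
      rw [div_eq_inv_mul, mul_assoc]
    simp only [h5]
    rw [intervalIntegral.integral_const_mul, Pool.Agent.H30.SB.Mom_eq]
    unfold ell
    have h6 : (2 * ((478 : ℕ) : ℝ) + 1) / 2 = 957 / 2 := by norm_num
    rw [h6, div_eq_inv_mul]
    ring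
  rw [hco] at key
  unfold TB
  show |957 / 2 * Mom ell a - rho ^ 2 * djl 478 rho * (jl 478 rho / djl 478 rho * E + c 478 478 478 / 2 * E ^ 2)| ≤
    rho ^ 2 * |djl 478 rho| * (5 / 20000 * E ^ 2)
  set A := rho ^ 2 * djl 478 rho with hAdef
  set M := 957 / 2 * Mom ell a
  set q := jl 478 rho / djl 478 rho * E + c 478 478 478 / 2 * E ^ 2
  have h1 : M - A * q = A * (M / A - q) := by field_simp
  rw [h1, abs_mul]
  have h2 : |A| = rho ^ 2 * |djl 478 rho| := by
    rw [hAdef, abs_mul, abs_of_pos (by positivity : (0 : ℝ) < rho ^ 2)]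
  rw [h2]
  refine mul_le_mul_of_nonneg_left (key.trans ?_) (by positivity)
  refine mul_le_mul_of_nonneg_right ?_ (by positivity)
  norm_num

end Pool.Agent.H11.SB
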